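import Pool.Agent.Y747.Avg
import Pool.Agent.Y747.CertC4
import Pool.Agent.Y747.CertC2
import Pool.Agent.Y747.CertC1
import Pool.Agent.Y747.CertC5
import Pool.Agent.Y747.CertC3
import Pool.Agent.Y747.CertC6
import Pool.Agent.Y747.CertC7

open Filter Set

namespace Pool.Agent.Results.MP_7eacff_nt.CentralMass

/-- multiplicity of `s` as a zero of the Riemann zeta function (order of vanishing at `s`) -/
noncomputable def zmult (s : ℂ) : ℕ := analyticOrderNatAt riemannZeta s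

/-- the number of nontrivial zeros of `ζ` with ordinate in `(0, t]`, with multiplicity -/
noncomputable def NZ (t : ℝ) : ℕ :=
  ∑ᶠ s ∈ {s : ℂ | riemannZeta s = 0 ∧ 0 < s.re ∧ s.re < 1 ∧ 0 < s.im ∧ s.im ≤ t}, zmult s

/-- for `n ≥ 1`: the `n`-th positive ordinate `γ n` of a nontrivial zero of `ζ`, the ordinates being
listed in nondecreasing order and repeated according to multiplicity -/
noncomputable def γ (n : ℕ) : ℝ := sInf {t : ℝ | n ≤ NZ t}

/-- the unfolded consecutive gaps `δ_n = (γ_{n+1} - γ_n) / 2π · log (γ_n / 2π)` -/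
noncomputable def δ (n : ℕ) : ℝ := (γ (n + 1) - γ n) / (2 * Real.pi) * Real.log (γ n / (2 * Real.pi))

/-- the proportion of the indices `1 ≤ n ≤ N` for which `δ_n` lies in the set `I` -/
noncomputable def P (N : ℕ) (I : Set ℝ) : ℝ :=
  (1 / N : ℝ) * ({n : ℕ | 1 ≤ n ∧ n ≤ N ∧ δ n ∈ I}.ncard : ℝ)

lemma toP {N : ℕ} {I : Set ℝ} {θ : ℝ} (hN : 0 < N)
    (h : θ * N ≤ ({n : ℕ | 1 ≤ n ∧ n ≤ N ∧ Y747.dl n ∈ I}.ncard : ℝ)) : θ ≤ P N I := by
  have hNpos : (0 : ℝ) < N := by exact_mod_cast hN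
  change θ ≤ (1 / N : ℝ) * ({n : ℕ | 1 ≤ n ∧ n ≤ N ∧ Y747.dl n ∈ I}.ncard : ℝ)
  rw [one_div, inv_mul_eq_div, le_div_iff₀ hNpos]
  exact h

lemma ipi : (0.02533 : ℝ) < 1 / (4 * Real.pi ^ 2) ∧ 1 / (4 * Real.pi ^ 2) < 0.025331 := by
  have h1 := Real.pi_gt_d6
  have h2 := Real.pi_lt_d6
  have h3 : 0 < Real.pi := Real.pi_pos
  constructor
  · rw [lt_div_iff₀ (by positivity)]
    nlinarith
  · rw [div_lt_iff₀ (by positivity)]
    nlinarith

theorem pC4 (RH : RiemannHypothesis) : ∀ᶠ N : ℕ in atTop,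
    (0.0548 : ℝ) * N ≤ ({n : ℕ | 1 ≤ n ∧ n ≤ N ∧ Y747.dl n ∈ Ioo (3/5 : ℝ) (7/5)}.ncard : ℝ) := by
  refine Y747.prop_ge RH (c0 := (33969 / 10000)) (c1 := (-3311 / 1000)) (c2 := (8069 / 10000))
    (lam := (8969 / 2500)) (κ := (24157 / 5000)) (fun p hp => Y747.np_C4 p hp) (by norm_num) _ ?_ ?_ ?_
  · intro x hx
    rcases le_total x (3/5) with h | h
    · have := Y747.sg_C4_0 x hx h
      linarith
    · rcases le_total x (7/5) with h' | h'
      · have := Y747.sg_C4_1 x h h'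
        linarith
      · have := Y747.sg_C4_2 x h'
        linarith
  · intro x hx hI
    rw [mem_Ioo, not_and_or, not_lt, not_lt] at hI
    rcases hI with h | h
    · have := Y747.sg_C4_0 x hx h
      linarith
    · have := Y747.sg_C4_2 x h
      linarith
  · obtain ⟨h1, h2⟩ := ipi
    have e : Y747.Vf (33969 / 10000) (-3311 / 1000) (8069 / 10000) = ((12439 / 2500) : ℝ) - (9823 / 1250) * (1 / (4 * Real.pi ^ 2)) := by
      unfold Y747.Vf
      ring
    rw [e]
    linarith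

theorem pC2 (RH : RiemannHypothesis) : ∀ᶠ N : ℕ in atTop,
    (0.3471 : ℝ) * N ≤ ({n : ℕ | 1 ≤ n ∧ n ≤ N ∧ Y747.dl n ∈ Ioo (1/2 : ℝ) (3/2)}.ncard : ℝ) := by
  refine Y747.prop_ge RH (c0 := (2339 / 1000)) (c1 := (-22329 / 10000)) (c2 := (533 / 1000))
    (lam := (13067 / 5000)) (κ := (36453 / 10000)) (fun p hp => Y747.np_C2 p hp) (by norm_num) _ ?_ ?_ ?_
  · intro x hx
    rcases le_total x (1/2) with h | h
    · have := Y747.sg_C2_0 x hx h
      linarith
    · rcases le_total x (3/2) with h' | h'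
      · have := Y747.sg_C2_1 x h h'
        linarith
      · have := Y747.sg_C2_2 x h'
        linarith
  · intro x hx hI
    rw [mem_Ioo, not_and_or, not_lt, not_lt] at hI
    rcases hI with h | h
    · have := Y747.sg_C2_0 x hx h
      linarith
    · have := Y747.sg_C2_2 x h
      linarith
  · obtain ⟨h1, h2⟩ := ipi
    have e : Y747.Vf (2339 / 1000) (-22329 / 10000) (533 / 1000) = ((206293 / 60000) : ℝ) - (55293 / 10000) * (1 / (4 * Real.pi ^ 2)) := by
      unfold Y747.Vf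
      ring
    rw [e]
    linarith

theorem pC1 (RH : RiemannHypothesis) : ∀ᶠ N : ℕ in atTop,
    (0.5011 : ℝ) * N ≤ ({n : ℕ | 1 ≤ n ∧ n ≤ N ∧ Y747.dl n ∈ Ioo (2/5 : ℝ) (8/5)}.ncard : ℝ) := by
  refine Y747.prop_ge RH (c0 := (18073 / 10000)) (c1 := (-4057 / 2500)) (c2 := (911 / 2500))
    (lam := (21057 / 10000)) (κ := (6141 / 2000)) (fun p hp => Y747.np_C1 p hp) (by norm_num) _ ?_ ?_ ?_
  · intro x hx
    rcases le_total x (2/5) with h | h
    · have := Y747.sg_C1_0 x hx h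
      linarith
    · rcases le_total x (8/5) with h' | h'
      · have := Y747.sg_C1_1 x h h'
        linarith
      · have := Y747.sg_C1_2 x h'
        linarith
  · intro x hx hI
    rw [mem_Ioo, not_and_or, not_lt, not_lt] at hI
    rcases hI with h | h
    · have := Y747.sg_C1_0 x hx h
      linarith
    · have := Y747.sg_C1_2 x h
      linarith
  · obtain ⟨h1, h2⟩ := ipi
    have e : Y747.Vf (18073 / 10000) (-4057 / 2500) (911 / 2500) = ((161051 / 60000) : ℝ) - (1813 / 400) * (1 / (4 * Real.pi ^ 2)) := by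
      unfold Y747.Vf
      ring
    rw [e]
    linarith

theorem pC5 (RH : RiemannHypothesis) : ∀ᶠ N : ℕ in atTop,
    (0.5650 : ℝ) * N ≤ ({n : ℕ | 1 ≤ n ∧ n ≤ N ∧ Y747.dl n ∈ Ioo (1/3 : ℝ) (5/3)}.ncard : ℝ) := by
  refine Y747.prop_ge RH (c0 := (15741 / 10000)) (c1 := (-14101 / 10000)) (c2 := (79 / 250))
    (lam := (9223 / 5000)) (κ := (7009 / 2500)) (fun p hp => Y747.np_C5 p hp) (by norm_num) _ ?_ ?_ ?_
  · intro x hx
    rcases le_total x (1/3) with h | h
    · have := Y747.sg_C5_0 x hx h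
      linarith
    · rcases le_total x (5/3) with h' | h'
      · have := Y747.sg_C5_1 x h h'
        linarith
      · have := Y747.sg_C5_2 x h'
        linarith
  · intro x hx hI
    rw [mem_Ioo, not_and_or, not_lt, not_lt] at hI
    rcases hI with h | h
    · have := Y747.sg_C5_0 x hx h
      linarith
    · have := Y747.sg_C5_2 x h
      linarith
  · obtain ⟨h1, h2⟩ := ipi
    have e : Y747.Vf (15741 / 10000) (-14101 / 10000) (79 / 250) = ((5847 / 2500) : ℝ) - (19781 / 5000) * (1 / (4 * Real.pi ^ 2)) := by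
      unfold Y747.Vf
      ring
    rw [e]
    linarith

theorem pC3 (RH : RiemannHypothesis) : ∀ᶠ N : ℕ in atTop,
    (0.6789 : ℝ) * N ≤ ({n : ℕ | 1 ≤ n ∧ n ≤ N ∧ Y747.dl n ∈ Ioo (1/4 : ℝ) (2)}.ncard : ℝ) := by
  refine Y747.prop_ge RH (c0 := (5949 / 5000)) (c1 := (-1309 / 1250)) (c2 := (1153 / 5000))
    (lam := (5927 / 5000)) (κ := (19 / 8)) (fun p hp => Y747.np_C3 p hp) (by norm_num) _ ?_ ?_ ?_
  · intro x hx
    rcases le_total x (1/4) with h | h
    · have := Y747.sg_C3_0 x hx h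
      linarith
    · rcases le_total x (2) with h' | h'
      · have := Y747.sg_C3_1 x h h'
        linarith
      · have := Y747.sg_C3_2 x h'
        linarith
  · intro x hx hI
    rw [mem_Ioo, not_and_or, not_lt, not_lt] at hI
    rcases hI with h | h
    · have := Y747.sg_C3_0 x hx h
      linarith
    · have := Y747.sg_C3_2 x h
      linarith
  · obtain ⟨h1, h2⟩ := ipi
    have e : Y747.Vf (5949 / 5000) (-1309 / 1250) (1153 / 5000) = ((1773 / 1000) : ℝ) - (1519 / 500) * (1 / (4 * Real.pi ^ 2)) := by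
      unfold Y747.Vf
      ring
    rw [e]
    linarith

theorem pC6 (RH : RiemannHypothesis) : ∀ᶠ N : ℕ in atTop,
    (0.7387 : ℝ) * N ≤ ({n : ℕ | 1 ≤ n ∧ n ≤ N ∧ Y747.dl n ∈ Ioo (1/5 : ℝ) (5/2)}.ncard : ℝ) := by
  refine Y747.prop_ge RH (c0 := (9391 / 10000)) (c1 := (-9349 / 10000)) (c2 := (291 / 1250))
    (lam := (1489 / 2000)) (κ := (5139 / 2500)) (fun p hp => Y747.np_C6 p hp) (by norm_num) _ ?_ ?_ ?_
  · intro x hx
    rcases le_total x (1/5) with h | h
    · have := Y747.sg_C6_0 x hx h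
      linarith
    · rcases le_total x (5/2) with h' | h'
      · have := Y747.sg_C6_1 x h h'
        linarith
      · have := Y747.sg_C6_2 x h'
        linarith
  · intro x hx hI
    rw [mem_Ioo, not_and_or, not_lt, not_lt] at hI
    rcases hI with h | h
    · have := Y747.sg_C6_0 x hx h
      linarith
    · have := Y747.sg_C6_2 x h
      linarith
  · obtain ⟨h1, h2⟩ := ipi
    have e : Y747.Vf (9391 / 10000) (-9349 / 10000) (291 / 1250) = ((41119 / 30000) : ℝ) - (5309 / 2500) * (1 / (4 * Real.pi ^ 2)) := by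
      unfold Y747.Vf
      ring
    rw [e]
    linarith

theorem pC7 (RH : RiemannHypothesis) : ∀ᶠ N : ℕ in atTop,
    (0.7924 : ℝ) * N ≤ ({n : ℕ | 1 ≤ n ∧ n ≤ N ∧ Y747.dl n ∈ Ioo (1/10 : ℝ) (4)}.ncard : ℝ) := by
  refine Y747.prop_ge RH (c0 := (6959 / 10000)) (c1 := (-1109 / 1250)) (c2 := (283 / 1000))
    (lam := (139 / 400)) (κ := (17383 / 10000)) (fun p hp => Y747.np_C7 p hp) (by norm_num) _ ?_ ?_ ?_
  · intro x hx
    rcases le_total x (1/10) with h | h
    · have := Y747.sg_C7_0 x hx h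
      linarith
    · rcases le_total x (4) with h' | h'
      · have := Y747.sg_C7_1 x h h'
        linarith
      · have := Y747.sg_C7_2 x h'
        linarith
  · intro x hx hI
    rw [mem_Ioo, not_and_or, not_lt, not_lt] at hI
    rcases hI with h | h
    · have := Y747.sg_C7_0 x hx h
      linarith
    · have := Y747.sg_C7_2 x h
      linarith
  · obtain ⟨h1, h2⟩ := ipi
    have e : Y747.Vf (6959 / 10000) (-1109 / 1250) (283 / 1000) = ((58423 / 60000) : ℝ) - (11009 / 10000) * (1 / (4 * Real.pi ^ 2)) := by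
      unfold Y747.Vf
      ring
    rw [e]
    linarith

/-- On the Riemann hypothesis: lower bounds, valid for all large `N`, for the proportion of the
normalised gaps of the zeta zeros in central intervals; in particular more than half of them lie
between `2/5` and `8/5`. -/
theorem result (RH : RiemannHypothesis) : ∀ᶠ N : ℕ in atTop,
    0.0548 ≤ P N (Ioo (3/5) (7/5)) ∧
    0.3471 ≤ P N (Ioo (1/2) (3/2)) ∧
    0.5011 ≤ P N (Ioo (2/5) (8/5)) ∧
    0.5650 ≤ P N (Ioo (1/3) (5/3)) ∧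
    0.6789 ≤ P N (Ioo (1/4) (2)) ∧
    0.7387 ≤ P N (Ioo (1/5) (5/2)) ∧
    0.7924 ≤ P N (Ioo (1/10) (4)) := by
  filter_upwards [pC4 RH, pC2 RH, pC1 RH, pC5 RH, pC3 RH, pC6 RH, pC7 RH,
    eventually_gt_atTop 0] with N hC4 hC2 hC1 hC5 hC3 hC6 hC7 hN
  exact ⟨toP hN hC4, toP hN hC2, toP hN hC1, toP hN hC5, toP hN hC3, toP hN hC6, toP hN hC7⟩

end Pool.Agent.Results.MP_7eacff_nt.CentralMass
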