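import Pool.Agent.Y747.Avg
import Pool.Agent.Y747.CertL125
import Pool.Agent.Y747.CertL141
import Pool.Agent.Y747.CertL15
import Pool.Agent.Y747.CertL175
import Pool.Agent.Y747.CertL2
import Pool.Agent.Y747.CertL25
import Pool.Agent.Y747.CertL3
import Pool.Agent.Y747.CertU01
import Pool.Agent.Y747.CertU25
import Pool.Agent.Y747.CertU5
import Pool.Agent.Y747.CertU6
import Pool.Agent.Y747.CertU75

open Filter Set

namespace Pool.Agent.Results.MP_7eacff_nt.DistributionFunction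

/-- multiplicity of `s` as a zero of the Riemann zeta function (order of vanishing at `s`) -/
noncomputable def zmult (s : ℂ) : ℕ := analyticOrderNatAt riemannZeta s

/-- the number of nontrivial zeros of `ζ` with ordinate in `(0, t]`, with multiplicity -/
noncomputable def NZ (t : ℝ) : ℕ :=
  ∑ᶠ s ∈ {s : ℂ | riemannZeta s = 0 ∧ 0 < s.re ∧ s.re < 1 ∧ 0 < s.im ∧ s.im ≤ t}, zmult s

/-- for `n ≥ 1`: the `n`-th positive ordinate `γ n` of a nontrivial zero of `ζ`, the ordinates being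
listed in nondecreasing order and repeated according to multiplicity -/
noncomputable def γ (n : ℕ) : ℝ := sInf {t : ℝ | n ≤ NZ t}

/-- the unfolded consecutive gaps `δ_n = (γ_{n+1} - γ_n) / 2π · log (γ_n / 2π)` -/
noncomputable def δ (n : ℕ) : ℝ := (γ (n + 1) - γ n) / (2 * Real.pi) * Real.log (γ n / (2 * Real.pi))

/-- the proportion of the indices `1 ≤ n ≤ N` for which `δ_n` lies in the set `I` -/
noncomputable def P (N : ℕ) (I : Set ℝ) : ℝ :=
  (1 / N : ℝ) * ({n : ℕ | 1 ≤ n ∧ n ≤ N ∧ δ n ∈ I}.ncard : ℝ)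

lemma toP {N : ℕ} {I : Set ℝ} {θ : ℝ} (hN : 0 < N)
    (h : θ * N ≤ ({n : ℕ | 1 ≤ n ∧ n ≤ N ∧ Y747.dl n ∈ I}.ncard : ℝ)) : θ ≤ P N I := by
  have hNpos : (0 : ℝ) < N := by exact_mod_cast hN
  change θ ≤ (1 / N : ℝ) * ({n : ℕ | 1 ≤ n ∧ n ≤ N ∧ Y747.dl n ∈ I}.ncard : ℝ)
  rw [one_div, inv_mul_eq_div, le_div_iff₀ hNpos]
  exact h

lemma toP' {N : ℕ} {I : Set ℝ} {θ : ℝ} (hN : 0 < N)
    (h : ({n : ℕ | 1 ≤ n ∧ n ≤ N ∧ Y747.dl n ∈ I}.ncard : ℝ) ≤ θ * N) : P N I ≤ θ := by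
  have hNpos : (0 : ℝ) < N := by exact_mod_cast hN
  change (1 / N : ℝ) * ({n : ℕ | 1 ≤ n ∧ n ≤ N ∧ Y747.dl n ∈ I}.ncard : ℝ) ≤ θ
  rw [one_div, inv_mul_eq_div, div_le_iff₀ hNpos]
  exact h

lemma ipi : (0.02533 : ℝ) < 1 / (4 * Real.pi ^ 2) ∧ 1 / (4 * Real.pi ^ 2) < 0.025331 := by
  have h1 := Real.pi_gt_d6
  have h2 := Real.pi_lt_d6
  have h3 : 0 < Real.pi := Real.pi_pos
  constructor
  · rw [lt_div_iff₀ (by positivity)]
    nlinarith
  · rw [div_lt_iff₀ (by positivity)]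
    nlinarith

theorem pL125 (RH : RiemannHypothesis) : ∀ᶠ N : ℕ in atTop,
    (0.3016 : ℝ) * N ≤ ({n : ℕ | 1 ≤ n ∧ n ≤ N ∧ Y747.dl n ∈ Iio (5/4 : ℝ)}.ncard : ℝ) := by
  refine Y747.prop_ge RH (c0 := (3453 / 5000)) (c1 := (-16229 / 10000)) (c2 := (1907 / 2000))
    (lam := (9129 / 5000)) (κ := (778 / 625)) (fun p hp => Y747.np_L125 p hp) (by norm_num) _ ?_ ?_ ?_
  · intro x hx
    rcases le_total x (5/4) with h | h
    · have := Y747.sg_L125_0 x hx (by norm_num at h ⊢; linarith)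
      linarith
    · have := Y747.sg_L125_1 x (by norm_num at h ⊢; linarith)
      linarith
  · intro x hx hI
    rw [mem_Iio, not_lt] at hI
    have := Y747.sg_L125_1 x (by norm_num at hI ⊢; linarith)
    linarith
  · obtain ⟨h1, h2⟩ := ipi
    have e : Y747.Vf (3453 / 5000) (-16229 / 10000) (1907 / 2000) = ((4657 / 5000) : ℝ) - (-2311 / 5000) * (1 / (4 * Real.pi ^ 2)) := by
      unfold Y747.Vf
      ring
    rw [e]
    linarith

theorem pL141 (RH : RiemannHypothesis) : ∀ᶠ N : ℕ in atTop,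
    (0.5070 : ℝ) * N ≤ ({n : ℕ | 1 ≤ n ∧ n ≤ N ∧ Y747.dl n ∈ Iio (1.41 : ℝ)}.ncard : ℝ) := by
  refine Y747.prop_ge RH (c0 := (9773 / 10000)) (c1 := (-12167 / 10000)) (c2 := (3789 / 10000))
    (lam := (5229 / 2500)) (κ := (1839 / 1000)) (fun p hp => Y747.np_L141 p hp) (by norm_num) _ ?_ ?_ ?_
  · intro x hx
    rcases le_total x (1.41) with h | h
    · have := Y747.sg_L141_0 x hx (by norm_num at h ⊢; linarith)
      linarith
    · have := Y747.sg_L141_1 x (by norm_num at h ⊢; linarith)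
      linarith
  · intro x hx hI
    rw [mem_Iio, not_lt] at hI
    have := Y747.sg_L141_1 x (by norm_num at hI ⊢; linarith)
    linarith
  · obtain ⟨h1, h2⟩ := ipi
    have e : Y747.Vf (9773 / 10000) (-12167 / 10000) (3789 / 10000) = ((82369 / 60000) : ℝ) - (16153 / 10000) * (1 / (4 * Real.pi ^ 2)) := by
      unfold Y747.Vf
      ring
    rw [e]
    linarith

theorem pL15 (RH : RiemannHypothesis) : ∀ᶠ N : ℕ in atTop,
    (0.5905 : ℝ) * N ≤ ({n : ℕ | 1 ≤ n ∧ n ≤ N ∧ Y747.dl n ∈ Iio (3/2 : ℝ)}.ncard : ℝ) := by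
  refine Y747.prop_ge RH (c0 := (981 / 1000)) (c1 := (-9693 / 10000)) (c2 := (2397 / 10000))
    (lam := (9871 / 5000)) (κ := (4919 / 2500)) (fun p hp => Y747.np_L15 p hp) (by norm_num) _ ?_ ?_ ?_
  · intro x hx
    rcases le_total x (3/2) with h | h
    · have := Y747.sg_L15_0 x hx (by norm_num at h ⊢; linarith)
      linarith
    · have := Y747.sg_L15_1 x (by norm_num at h ⊢; linarith)
      linarith
  · intro x hx hI
    rw [mem_Iio, not_lt] at hI
    have := Y747.sg_L15_1 x (by norm_num at hI ⊢; linarith)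
    linarith
  · obtain ⟨h1, h2⟩ := ipi
    have e : Y747.Vf (981 / 1000) (-9693 / 10000) (2397 / 10000) = ((14337 / 10000) : ℝ) - (1398 / 625) * (1 / (4 * Real.pi ^ 2)) := by
      unfold Y747.Vf
      ring
    rw [e]
    linarith

theorem pL175 (RH : RiemannHypothesis) : ∀ᶠ N : ℕ in atTop,
    (0.7366 : ℝ) * N ≤ ({n : ℕ | 1 ≤ n ∧ n ≤ N ∧ Y747.dl n ∈ Iio (7/4 : ℝ)}.ncard : ℝ) := by
  refine Y747.prop_ge RH (c0 := (8577 / 10000)) (c1 := (-5081 / 10000)) (c2 := (377 / 5000))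
    (lam := (15511 / 10000)) (κ := (1263 / 625)) (fun p hp => Y747.np_L175 p hp) (by norm_num) _ ?_ ?_ ?_
  · intro x hx
    rcases le_total x (7/4) with h | h
    · have := Y747.sg_L175_0 x hx (by norm_num at h ⊢; linarith)
      linarith
    · have := Y747.sg_L175_1 x (by norm_num at h ⊢; linarith)
      linarith
  · intro x hx hI
    rw [mem_Iio, not_lt] at hI
    have := Y747.sg_L175_1 x (by norm_num at hI ⊢; linarith)
    linarith
  · obtain ⟨h1, h2⟩ := ipi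
    have e : Y747.Vf (8577 / 10000) (-5081 / 10000) (377 / 5000) = ((13561 / 10000) : ℝ) - (7099 / 2500) * (1 / (4 * Real.pi ^ 2)) := by
      unfold Y747.Vf
      ring
    rw [e]
    linarith

theorem pL2 (RH : RiemannHypothesis) : ∀ᶠ N : ℕ in atTop,
    (0.8128 : ℝ) * N ≤ ({n : ℕ | 1 ≤ n ∧ n ≤ N ∧ Y747.dl n ∈ Iio (2 : ℝ)}.ncard : ℝ) := by
  refine Y747.prop_ge RH (c0 := (3543 / 5000)) (c1 := (-2803 / 10000)) (c2 := (279 / 10000))
    (lam := (12081 / 10000)) (κ := (9583 / 5000)) (fun p hp => Y747.np_L2 p hp) (by norm_num) _ ?_ ?_ ?_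
  · intro x hx
    rcases le_total x (2) with h | h
    · have := Y747.sg_L2_0 x hx (by norm_num at h ⊢; linarith)
      linarith
    · have := Y747.sg_L2_1 x (by norm_num at h ⊢; linarith)
      linarith
  · intro x hx hI
    rw [mem_Iio, not_lt] at hI
    have := Y747.sg_L2_1 x (by norm_num at hI ⊢; linarith)
    linarith
  · obtain ⟨h1, h2⟩ := ipi
    have e : Y747.Vf (3543 / 5000) (-2803 / 10000) (279 / 10000) = ((11729 / 10000) : ℝ) - (273 / 100) * (1 / (4 * Real.pi ^ 2)) := by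
      unfold Y747.Vf
      ring
    rw [e]
    linarith

theorem pL25 (RH : RiemannHypothesis) : ∀ᶠ N : ℕ in atTop,
    (0.8847 : ℝ) * N ≤ ({n : ℕ | 1 ≤ n ∧ n ≤ N ∧ Y747.dl n ∈ Iio (5/2 : ℝ)}.ncard : ℝ) := by
  refine Y747.prop_ge RH (c0 := (2467 / 5000)) (c1 := (-53 / 500)) (c2 := (59 / 10000))
    (lam := (7943 / 10000)) (κ := (16847 / 10000)) (fun p hp => Y747.np_L25 p hp) (by norm_num) _ ?_ ?_ ?_
  · intro x hx
    rcases le_total x (5/2) with h | h
    · have := Y747.sg_L25_0 x hx (by norm_num at h ⊢; linarith)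
      linarith
    · have := Y747.sg_L25_1 x (by norm_num at h ⊢; linarith)
      linarith
  · intro x hx hI
    rw [mem_Iio, not_lt] at hI
    have := Y747.sg_L25_1 x (by norm_num at hI ⊢; linarith)
    linarith
  · obtain ⟨h1, h2⟩ := ipi
    have e : Y747.Vf (2467 / 5000) (-53 / 500) (59 / 10000) = ((51271 / 60000) : ℝ) - (21549 / 10000) * (1 / (4 * Real.pi ^ 2)) := by
      unfold Y747.Vf
      ring
    rw [e]
    linarith

theorem pL3 (RH : RiemannHypothesis) : ∀ᶠ N : ℕ in atTop,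
    (0.9173 : ℝ) * N ≤ ({n : ℕ | 1 ≤ n ∧ n ≤ N ∧ Y747.dl n ∈ Iio (3 : ℝ)}.ncard : ℝ) := by
  refine Y747.prop_ge RH (c0 := (1843 / 5000)) (c1 := (-51 / 1000)) (c2 := (1 / 500))
    (lam := (5787 / 10000)) (κ := (7629 / 5000)) (fun p hp => Y747.np_L3 p hp) (by norm_num) _ ?_ ?_ ?_
  · intro x hx
    rcases le_total x (3) with h | h
    · have := Y747.sg_L3_0 x hx (by norm_num at h ⊢; linarith)
      linarith
    · have := Y747.sg_L3_1 x (by norm_num at h ⊢; linarith)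
      linarith
  · intro x hx hI
    rw [mem_Iio, not_lt] at hI
    have := Y747.sg_L3_1 x (by norm_num at hI ⊢; linarith)
    linarith
  · obtain ⟨h1, h2⟩ := ipi
    have e : Y747.Vf (1843 / 5000) (-51 / 1000) (1 / 500) = ((9769 / 15000) : ℝ) - (423 / 250) * (1 / (4 * Real.pi ^ 2)) := by
      unfold Y747.Vf
      ring
    rw [e]
    linarith

theorem pU01 (RH : RiemannHypothesis) : ∀ᶠ N : ℕ in atTop,
    ({n : ℕ | 1 ≤ n ∧ n ≤ N ∧ Y747.dl n ∈ Iic (1/10 : ℝ)}.ncard : ℝ) ≤ (0.1703 : ℝ) * N := by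
  refine Y747.prop_le RH (c0 := (1289 / 2500)) (c1 := (-2281 / 2500)) (c2 := (2019 / 5000))
    (lam := 0) (κ := (1029 / 2000)) (fun p hp => Y747.np_U01 p hp) (by norm_num) _ ?_ ?_ ?_
  · intro x hx
    rcases le_total x (1/10) with h | h
    · have := Y747.sg_U01_0 x hx h
      linarith
    · have := Y747.sg_U01_1 x h
      linarith
  · intro x hx hI
    rw [mem_Iic] at hI
    have := Y747.sg_U01_0 x hx hI
    linarith
  · obtain ⟨h1, h2⟩ := ipi
    have e : Y747.Vf (1289 / 2500) (-2281 / 2500) (2019 / 5000) = ((20729 / 30000) : ℝ) - (1223 / 5000) * (1 / (4 * Real.pi ^ 2)) := by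
      unfold Y747.Vf
      ring
    rw [e]
    linarith

theorem pU25 (RH : RiemannHypothesis) : ∀ᶠ N : ℕ in atTop,
    ({n : ℕ | 1 ≤ n ∧ n ≤ N ∧ Y747.dl n ∈ Iic (1/4 : ℝ)}.ncard : ℝ) ≤ (0.2001 : ℝ) * N := by
  refine Y747.prop_le RH (c0 := (1511 / 2500)) (c1 := (-5111 / 5000)) (c2 := (1081 / 2500))
    (lam := 0) (κ := (6033 / 10000)) (fun p hp => Y747.np_U25 p hp) (by norm_num) _ ?_ ?_ ?_
  · intro x hx
    rcases le_total x (1/4) with h | h
    · have := Y747.sg_U25_0 x hx h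
      linarith
    · have := Y747.sg_U25_1 x h
      linarith
  · intro x hx hI
    rw [mem_Iic] at hI
    have := Y747.sg_U25_0 x hx hI
    linarith
  · obtain ⟨h1, h2⟩ := ipi
    have e : Y747.Vf (1511 / 2500) (-5111 / 5000) (1081 / 2500) = ((4879 / 6000) : ℝ) - (1939 / 5000) * (1 / (4 * Real.pi ^ 2)) := by
      unfold Y747.Vf
      ring
    rw [e]
    linarith

theorem pU5 (RH : RiemannHypothesis) : ∀ᶠ N : ℕ in atTop,
    ({n : ℕ | 1 ≤ n ∧ n ≤ N ∧ Y747.dl n ∈ Iic (1/2 : ℝ)}.ncard : ℝ) ≤ (0.3534 : ℝ) * N := by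
  refine Y747.prop_le RH (c0 := (10009 / 10000)) (c1 := (-3349 / 2500)) (c2 := (4483 / 10000))
    (lam := 0) (κ := (9997 / 10000)) (fun p hp => Y747.np_U5 p hp) (by norm_num) _ ?_ ?_ ?_
  · intro x hx
    rcases le_total x (1/2) with h | h
    · have := Y747.sg_U5_0 x hx h
      linarith
    · have := Y747.sg_U5_1 x h
      linarith
  · intro x hx hI
    rw [mem_Iic] at hI
    have := Y747.sg_U5_0 x hx hI
    linarith
  · obtain ⟨h1, h2⟩ := ipi
    have e : Y747.Vf (10009 / 10000) (-3349 / 2500) (4483 / 10000) = ((521 / 375) : ℝ) - (717 / 500) * (1 / (4 * Real.pi ^ 2)) := by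
      unfold Y747.Vf
      ring
    rw [e]
    linarith

theorem pU6 (RH : RiemannHypothesis) : ∀ᶠ N : ℕ in atTop,
    ({n : ℕ | 1 ≤ n ∧ n ≤ N ∧ Y747.dl n ∈ Iic (3/5 : ℝ)}.ncard : ℝ) ≤ (0.4811 : ℝ) * N := by
  refine Y747.prop_le RH (c0 := (12291 / 10000)) (c1 := (-1277 / 1000)) (c2 := (3319 / 10000))
    (lam := (63 / 5000)) (κ := (12327 / 10000)) (fun p hp => Y747.np_U6 p hp) (by norm_num) _ ?_ ?_ ?_
  · intro x hx
    rcases le_total x (3/5) with h | h
    · have := Y747.sg_U6_0 x hx h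
      linarith
    · have := Y747.sg_U6_1 x h
      linarith
  · intro x hx hI
    rw [mem_Iic] at hI
    have := Y747.sg_U6_0 x hx hI
    linarith
  · obtain ⟨h1, h2⟩ := ipi
    have e : Y747.Vf (12291 / 10000) (-1277 / 1000) (3319 / 10000) = ((1113 / 625) : ℝ) - (1654 / 625) * (1 / (4 * Real.pi ^ 2)) := by
      unfold Y747.Vf
      ring
    rw [e]
    linarith

theorem pU75 (RH : RiemannHypothesis) : ∀ᶠ N : ℕ in atTop,
    ({n : ℕ | 1 ≤ n ∧ n ≤ N ∧ Y747.dl n ∈ Iic (3/4 : ℝ)}.ncard : ℝ) ≤ (0.7486 : ℝ) * N := by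
  refine Y747.prop_le RH (c0 := (1211 / 1000)) (c1 := (-541 / 2000)) (c2 := (153 / 10000))
    (lam := 0) (κ := (3027 / 2500)) (fun p hp => Y747.np_U75 p hp) (by norm_num) _ ?_ ?_ ?_
  · intro x hx
    rcases le_total x (3/4) with h | h
    · have := Y747.sg_U75_0 x hx h
      linarith
    · have := Y747.sg_U75_1 x h
      linarith
  · intro x hx hI
    rw [mem_Iic] at hI
    have := Y747.sg_U75_0 x hx hI
    linarith
  · obtain ⟨h1, h2⟩ := ipi
    have e : Y747.Vf (1211 / 1000) (-541 / 2000) (153 / 10000) = ((62777 / 30000) : ℝ) - (13147 / 2500) * (1 / (4 * Real.pi ^ 2)) := by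
      unfold Y747.Vf
      ring
    rw [e]
    linarith

/-- On the Riemann hypothesis: explicit bounds, valid for all large `N`, for the distribution
function of the normalised gaps of the zeta zeros; in particular their median lies between `3/5`
and `1.41`. -/
theorem result (RH : RiemannHypothesis) : ∀ᶠ N : ℕ in atTop,
    P N (Iic (1/10)) ≤ 0.1703 ∧
    P N (Iic (1/4)) ≤ 0.2001 ∧
    P N (Iic (1/2)) ≤ 0.3534 ∧
    P N (Iic (3/5)) ≤ 0.4811 ∧
    P N (Iic (3/4)) ≤ 0.7486 ∧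
    0.3016 ≤ P N (Iio (5/4)) ∧
    0.5070 ≤ P N (Iio (1.41)) ∧
    0.5905 ≤ P N (Iio (3/2)) ∧
    0.7366 ≤ P N (Iio (7/4)) ∧
    0.8128 ≤ P N (Iio (2)) ∧
    0.8847 ≤ P N (Iio (5/2)) ∧
    0.9173 ≤ P N (Iio (3)) := by
  filter_upwards [pU01 RH, pU25 RH, pU5 RH, pU6 RH, pU75 RH, pL125 RH, pL141 RH, pL15 RH, pL175 RH, pL2 RH, pL25 RH, pL3 RH,
    eventually_gt_atTop 0] with N hU01 hU25 hU5 hU6 hU75 hL125 hL141 hL15 hL175 hL2 hL25 hL3 hN
  exact ⟨toP' hN hU01, toP' hN hU25, toP' hN hU5, toP' hN hU6, toP' hN hU75, toP hN hL125, toP hN hL141, toP hN hL15, toP hN hL175, toP hN hL2, toP hN hL25, toP hN hL3⟩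

end Pool.Agent.Results.MP_7eacff_nt.DistributionFunction
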