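import Pool.Agent.Y743.LR.NT5

/-!
# Consecutive gaps between the zeta zeros satisfy no linear relation, even approximately

Assume the Riemann hypothesis.  For every `k` there is `ε > 0` such that for all large `N`, all real
`a 0, …, a (k - 1)` with `|a j| ≥ 1` for some `j` and all real `b` at least `ε N` of the indices
`n ≤ N` satisfy `|a 0 δ_n + … + a (k - 1) δ_{n + k - 1} - b| ≥ ε`, where `δ_n` are the unfolded gaps.

Idea of the proof.  Otherwise, by compactness, there are heights `T → ∞` and a polynomial `c ≠ 0`
such that `c` in the shift operator `S` maps the gaps of the unfolded ordinates `y_n` (after one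
more difference) to a sequence that is small for almost all `n`.  Write `c (X - 1)² = (X - 1)^r D`
with `D` prime to `X - 1`.  By Bézout `y = G + V(S) (gaps)`, where `(S - 1)^r G` is small almost
everywhere; as the gaps are tight, the order of the difference can be reduced to two, so that `G` is
locally linear, and its slope has to be one.  Therefore the number of zeros in a window of length
`a` mean spacings differs from `a` by a quantity whose mean square is bounded uniformly in `a`.  But
this mean square, the number variance, is `π⁻² log (1 + a) + O(1)` (pair correlation for `|α| < 1`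
and its complement).
-/

set_option autoImplicit false

open Filter

namespace Pool.Agent.Results.MP_7eacff_nt.LinearRelations

/-- multiplicity of `s` as a zero of the Riemann zeta function (order of vanishing at `s`) -/
noncomputable def zmult (s : ℂ) : ℕ := analyticOrderNatAt riemannZeta s

/-- the number of nontrivial zeros of `ζ` with ordinate in `(0, t]`, with multiplicity -/
noncomputable def NZ (t : ℝ) : ℕ :=
  ∑ᶠ s ∈ {s : ℂ | riemannZeta s = 0 ∧ 0 < s.re ∧ s.re < 1 ∧ 0 < s.im ∧ s.im ≤ t}, zmult s

/-- for `n ≥ 1`: the `n`-th positive ordinate `γ n` of a nontrivial zero of `ζ`, the ordinates being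
listed in nondecreasing order and repeated according to multiplicity -/
noncomputable def γ (n : ℕ) : ℝ := sInf {t : ℝ | n ≤ NZ t}

/-- the unfolded gaps `δ_n = (γ_{n+1} - γ_n) / 2π * log (γ_n / 2π)` -/
noncomputable def δ (n : ℕ) : ℝ :=
  (γ (n + 1) - γ n) / (2 * Real.pi) * Real.log (γ n / (2 * Real.pi))

/-- **Theorem.** On the Riemann hypothesis, for every `k` there is `ε > 0` such that for all large
`N`, every linear form in `k` consecutive unfolded gaps with a coefficient of modulus at least `1`
and every real `b`, the form differs from `b` by at least `ε` for at least `ε N` indices `n ≤ N`. -/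
theorem result (RH : RiemannHypothesis) (k : ℕ) :
    ∃ ε : ℝ, 0 < ε ∧ ∀ᶠ N : ℕ in atTop, ∀ a : Fin k → ℝ, (∃ j, 1 ≤ |a j|) → ∀ b : ℝ,
      ε * N ≤ ({n : ℕ | 1 ≤ n ∧ n ≤ N ∧ ε ≤ |∑ j : Fin k, a j * δ (n + j) - b|}.ncard : ℝ) := by
  obtain ⟨ε, hε, h⟩ := Pool.Agent.Y743.LR.gaps RH k
  refine ⟨ε, hε, ?_⟩
  filter_upwards [h] with N hN a ha b
  have e : ∀ n, Pool.Agent.Y743.LR.dl n = δ n := by
    intro n
    unfold Pool.Agent.Y743.LR.dl δ
    have e1 : SG.ord = γ := rfl
    rw [e1]
    ring
  have h1 := hN a ha b
  simp only [e] at h1
  exact h1

end Pool.Agent.Results.MP_7eacff_nt.LinearRelations
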