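import Pool.Agent.Y747.Gp
import Pool.Agent.Y747.Avg
import Pool.Agent.Y747.CertM

open Filter Set

namespace Pool.Agent.Results.MP_7eacff_nt.MeanDeviation

/-- multiplicity of `s` as a zero of the Riemann zeta function (order of vanishing at `s`) -/
noncomputable def zmult (s : ℂ) : ℕ := analyticOrderNatAt riemannZeta s

/-- the number of nontrivial zeros of `ζ` with ordinate in `(0, t]`, with multiplicity -/
noncomputable def NZ (t : ℝ) : ℕ :=
  ∑ᶠ s ∈ {s : ℂ | riemannZeta s = 0 ∧ 0 < s.re ∧ s.re < 1 ∧ 0 < s.im ∧ s.im ≤ t}, zmult s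

/-- for `n ≥ 1`: the `n`-th positive ordinate `γ n` of a nontrivial zero of `ζ`, the ordinates being
listed in nondecreasing order and repeated according to multiplicity -/
noncomputable def γ (n : ℕ) : ℝ := sInf {t : ℝ | n ≤ NZ t}

/-- the unfolded consecutive gaps `δ_n = (γ_{n+1} - γ_n) / 2π · log (γ_n / 2π)` -/
noncomputable def δ (n : ℕ) : ℝ := (γ (n + 1) - γ n) / (2 * Real.pi) * Real.log (γ n / (2 * Real.pi))

theorem lower (RH : RiemannHypothesis) : ∀ᶠ N : ℕ in atTop,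
    (0.201 : ℝ) * N ≤ ∑ n ∈ Finset.Icc 1 N, |Y747.dl n - 1| := by
  filter_upwards [Y747.plus_ge RH (1 / 100000) (by norm_num),
    Y747.sum_dl_le (1 / 100000) (by norm_num)] with N h1 h2
  have e : ∑ n ∈ Finset.Icc 1 N, |Y747.dl n - 1| =
      2 * ∑ n ∈ Finset.Icc 1 N, max 0 (Y747.dl n - 1) - (∑ n ∈ Finset.Icc 1 N, Y747.dl n - N) := by
    have e1 : (N : ℝ) = ∑ n ∈ Finset.Icc 1 N, (1 : ℝ) := by simp
    rw [e1, ← Finset.sum_sub_distrib, Finset.mul_sum, ← Finset.sum_sub_distrib]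
    apply Finset.sum_congr rfl
    intro n _
    rcases le_total 0 (Y747.dl n - 1) with h | h
    · rw [abs_of_nonneg h, max_eq_right h]
      ring
    · rw [abs_of_nonpos h, max_eq_left h]
      ring
  rw [e]
  have hN : (0 : ℝ) ≤ N := Nat.cast_nonneg N
  linarith

theorem upper (RH : RiemannHypothesis) : ∀ᶠ N : ℕ in atTop,
    ∑ n ∈ Finset.Icc 1 N, |Y747.dl n - 1| ≤ (0.409 : ℝ) * N := by
  have h := Y747.avg RH (Y747.cd_gk 1 (-961 / 1000) (2311 / 10000))
    (Y747.gk_one 1 (-961 / 1000) (2311 / 10000)) (Y747.ct_gk_nonneg Y747.np_M)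
    (lam := 1) zero_le_one (φ := fun x => |x - 1| + 1) (fun x hx => by
      rw [Y747.ct_gk_zero]
      exact Y747.cert_M x hx) (1 / 100000) (by norm_num)
  rw [Y747.mom_gk] at h
  filter_upwards [h] with N hN
  rw [Finset.sum_add_distrib, Finset.sum_const, Nat.card_Icc, Nat.add_sub_cancel, nsmul_eq_mul,
    mul_one] at hN
  have h1 := Real.pi_gt_d6
  have h2 := Real.pi_lt_d6
  have h3 : (0.02533 : ℝ) < 1 / (4 * Real.pi ^ 2) := by
    rw [lt_div_iff₀ (by positivity)]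
    nlinarith
  have e : Y747.Vf 1 (-961 / 1000) (2311 / 10000) =
      (4 / 3 + 2701 / 20000 : ℝ) - (23481 / 10000) * (1 / (4 * Real.pi ^ 2)) := by
    unfold Y747.Vf
    ring
  have h4 : Y747.Vf 1 (-961 / 1000) (2311 / 10000) + 1 / 100000 ≤ 1.409 := by
    rw [e]
    linarith
  have hN0 : (0 : ℝ) ≤ N := Nat.cast_nonneg N
  have h5 := mul_le_mul_of_nonneg_right h4 hN0
  linarith

/-- On the Riemann hypothesis: the mean absolute deviation of the normalised gaps of the zeta zeros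
from their mean value `1` lies, for all large `N`, between `0.201` and `0.409`. -/
theorem result (RH : RiemannHypothesis) : ∀ᶠ N : ℕ in atTop,
    0.201 ≤ (1 / N : ℝ) * ∑ n ∈ Finset.Icc 1 N, |δ n - 1| ∧
      (1 / N : ℝ) * ∑ n ∈ Finset.Icc 1 N, |δ n - 1| ≤ 0.409 := by
  filter_upwards [lower RH, upper RH, eventually_gt_atTop 0] with N h1 h2 hN
  have hNpos : (0 : ℝ) < N := by exact_mod_cast hN
  change 0.201 ≤ (1 / N : ℝ) * ∑ n ∈ Finset.Icc 1 N, |Y747.dl n - 1| ∧
      (1 / N : ℝ) * ∑ n ∈ Finset.Icc 1 N, |Y747.dl n - 1| ≤ 0.409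
  rw [one_div, inv_mul_eq_div]
  exact ⟨(le_div_iff₀ hNpos).2 h1, (div_le_iff₀ hNpos).2 h2⟩

end Pool.Agent.Results.MP_7eacff_nt.MeanDeviation
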